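import Pool.Agent.W142.TF.Stm4

/-! # Project HF (helper142), task HF-CHE (helper311): simultaneous concentration -/

set_option autoImplicit false
open Filter Topology Finset

namespace Pool.Agent.W311.HF

/-- one coordinate -/
theorem one {p : ℕ} [NeZero p] (g : ZMod p → ℝ) (hg : ∀ y, 0 ≤ g y ∧ g y ≤ 1) {l : ℝ} (hl : 0 ≤ l)
    (hl1 : l ≤ 1) : ∑ y, Real.exp (l * (g y - (∑ z, g z) / p)) ≤ p * Real.exp (l ^ 2) := by
  have hp : (0 : ℝ) < p := by exact_mod_cast Nat.pos_of_ne_zero (NeZero.ne p)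
  set m : ℝ := (∑ z, g z) / p with hm
  have hcard : ∑ _y : ZMod p, (1 : ℝ) = p := by simp [ZMod.card]
  have hm0 : 0 ≤ m := div_nonneg (Finset.sum_nonneg fun z _ => (hg z).1) hp.le
  have hm1 : m ≤ 1 := by
    rw [hm, div_le_one hp, ← hcard]
    exact Finset.sum_le_sum fun z _ => (hg z).2
  have hsum : ∑ y, l * (g y - m) = 0 := by
    rw [← Finset.mul_sum, Finset.sum_sub_distrib]
    have : ∑ _y : ZMod p, m = p * m := by simp [ZMod.card]
    rw [this, hm]
    field_simp
    ring
  have hy : ∀ y, Real.exp (l * (g y - m)) ≤ 1 + l * (g y - m) + l ^ 2 := by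
    intro y
    have h1 : |g y - m| ≤ 1 := by
      rw [abs_le]; constructor <;> linarith [(hg y).1, (hg y).2]
    have h2 : |l * (g y - m)| ≤ 1 := by
      rw [abs_mul, abs_of_nonneg hl]
      exact mul_le_one₀ hl1 (abs_nonneg _) h1
    have h3 := Real.abs_exp_sub_one_sub_id_le h2
    rw [abs_le] at h3
    have h4 : (l * (g y - m)) ^ 2 ≤ l ^ 2 := by
      rw [mul_pow]
      have : (g y - m) ^ 2 ≤ 1 := by rw [← sq_abs]; exact pow_le_one₀ (abs_nonneg _) h1
      nlinarith [sq_nonneg l]
    linarith [h3.2]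
  calc ∑ y, Real.exp (l * (g y - m)) ≤ ∑ y, (1 + l * (g y - m) + l ^ 2) :=
        Finset.sum_le_sum fun y _ => hy y
    _ = p * (1 + l ^ 2) := by
        rw [Finset.sum_add_distrib, Finset.sum_add_distrib, hsum, hcard]
        have : ∑ _y : ZMod p, l ^ 2 = p * l ^ 2 := by simp [ZMod.card]
        rw [this]
        ring
    _ ≤ p * Real.exp (l ^ 2) := by
        apply mul_le_mul_of_nonneg_left _ hp.le
        have := Real.add_one_le_exp (l ^ 2)
        linarith

/-- merging -/
def mg {n p : ℕ} (W : Finset (Fin n)) (x z : Fin n → ZMod p) : Fin n → ZMod p :=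
  fun i => if i ∈ W then x i else z i

theorem mg_mg {n p : ℕ} (W : Finset (Fin n)) (x z : Fin n → ZMod p) :
    mg W (mg W x z) (mg W z x) = x := by
  funext i
  unfold mg
  by_cases h : i ∈ W <;> simp [h]

/-- the exponential moment -/
theorem mom {n p : ℕ} [NeZero p] (W : Finset (Fin n)) (f : (Fin n → ZMod p) → Fin n → ZMod p → ℝ)
    (hf : ∀ x i y, 0 ≤ f x i y ∧ f x i y ≤ 1) (hW : ∀ x x', (∀ i ∈ W, x i = x' i) → f x = f x')
    {l : ℝ} (hl : 0 ≤ l) (hl1 : l ≤ 1) :
    ∑ x : Fin n → ZMod p, Real.exp (l * ∑ i ∈ univ \ W, (f x i (x i) - (∑ y, f x i y) / p)) ≤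
      (p : ℝ) ^ n * Real.exp (l ^ 2 * n) := by
  have hp : (0 : ℝ) < p := by exact_mod_cast Nat.pos_of_ne_zero (NeZero.ne p)
  set F : (Fin n → ZMod p) → ℝ := fun x =>
    Real.exp (l * ∑ i ∈ univ \ W, (f x i (x i) - (∑ y, f x i y) / p)) with hF
  have hcard : ∑ _x : Fin n → ZMod p, (1 : ℝ) = (p : ℝ) ^ n := by simp [ZMod.card]
  -- resampling
  have h1 : ∑ xz : (Fin n → ZMod p) × (Fin n → ZMod p), F (mg W xz.1 xz.2) =
      ∑ xz : (Fin n → ZMod p) × (Fin n → ZMod p), F xz.1 := by
    refine Fintype.sum_equiv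
      { toFun := fun xz => (mg W xz.1 xz.2, mg W xz.2 xz.1)
        invFun := fun xz => (mg W xz.1 xz.2, mg W xz.2 xz.1)
        left_inv := fun xz => by
          ext1
          · exact mg_mg W xz.1 xz.2
          · exact mg_mg W xz.2 xz.1
        right_inv := fun xz => by
          ext1
          · exact mg_mg W xz.1 xz.2
          · exact mg_mg W xz.2 xz.1 } _ _ ?_
    intro xz
    rfl
  have h2 : ∑ xz : (Fin n → ZMod p) × (Fin n → ZMod p), F xz.1 = (∑ x, F x) * (p : ℝ) ^ n := by
    rw [Fintype.sum_prod_type]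
    rw [Finset.sum_mul]
    refine Finset.sum_congr rfl fun x _ => ?_
    rw [← hcard, Finset.mul_sum]
    simp
  have h3 : ∀ x : Fin n → ZMod p, ∑ z, F (mg W x z) ≤ (p : ℝ) ^ n * Real.exp (l ^ 2 * n) := by
    intro x
    have hfx : ∀ z, f (mg W x z) = f x := by
      intro z
      apply hW
      intro i hi
      unfold mg
      rw [if_pos hi]
    set G : Fin n → ZMod p → ℝ := fun i y =>
      if i ∈ W then 1 else Real.exp (l * (f x i y - (∑ y, f x i y) / p)) with hG
    have h4 : ∀ z, F (mg W x z) = ∏ i, G i (z i) := by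
      intro z
      have e1 : F (mg W x z) = ∏ i ∈ univ \ W, Real.exp (l * (f x i (z i) -
          (∑ y, f x i y) / p)) := by
        simp only [hF]
        rw [hfx, Finset.mul_sum, Real.exp_sum]
        refine Finset.prod_congr rfl fun i hi => ?_
        rw [Finset.mem_sdiff] at hi
        unfold mg
        rw [if_neg hi.2]
      rw [e1]
      have e2 : ∏ i, G i (z i) = (∏ i ∈ univ \ W, G i (z i)) * ∏ i ∈ W, G i (z i) :=
        (Finset.prod_sdiff (Finset.subset_univ W)).symm
      rw [e2]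
      have e3 : ∏ i ∈ W, G i (z i) = 1 := by
        apply Finset.prod_eq_one
        intro i hi
        simp only [hG]
        rw [if_pos hi]
      rw [e3, mul_one]
      refine Finset.prod_congr rfl fun i hi => ?_
      rw [Finset.mem_sdiff] at hi
      simp only [hG]
      rw [if_neg hi.2]
    have h5 : ∑ z, F (mg W x z) = ∏ i, ∑ y, G i y := by
      rw [Finset.sum_congr rfl fun z _ => h4 z]
      rw [Finset.prod_univ_sum, Fintype.piFinset_univ]
    rw [h5]
    have h6 : ∀ i, ∑ y, G i y ≤ p * Real.exp (l ^ 2) := by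
      intro i
      simp only [hG]
      by_cases hi : i ∈ W
      · simp only [hi, if_true]
        have : ∑ _y : ZMod p, (1 : ℝ) = p := by simp [ZMod.card]
        rw [this]
        have h7 : 1 ≤ Real.exp (l ^ 2) := Real.one_le_exp (sq_nonneg l)
        nlinarith
      · simp only [hi, if_false]
        exact one (f x i) (hf x i) hl hl1
    calc ∏ i, ∑ y, G i y ≤ ∏ _i : Fin n, (p * Real.exp (l ^ 2)) := by
          apply Finset.prod_le_prod
          · intro i _
            refine Finset.sum_nonneg fun y _ => ?_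
            simp only [hG]
            split_ifs
            · exact zero_le_one
            · exact (Real.exp_pos _).le
          · intro i _
            exact h6 i
      _ = (p : ℝ) ^ n * Real.exp (l ^ 2 * n) := by
          rw [Finset.prod_const, Finset.card_univ, Fintype.card_fin, mul_pow, ← Real.exp_nat_mul]
          congr 2
          ring
  have h4 : (∑ x, F x) * (p : ℝ) ^ n ≤ (p : ℝ) ^ n * ((p : ℝ) ^ n * Real.exp (l ^ 2 * n)) := by
    rw [← h2, ← h1, Fintype.sum_prod_type]
    calc ∑ x, ∑ z, F (mg W x z) ≤ ∑ _x : Fin n → ZMod p, (p : ℝ) ^ n * Real.exp (l ^ 2 * n) :=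
          Finset.sum_le_sum fun x _ => h3 x
      _ = (p : ℝ) ^ n * ((p : ℝ) ^ n * Real.exp (l ^ 2 * n)) := by
          rw [← hcard, Finset.sum_mul]
          simp
  have hpn : (0 : ℝ) < (p : ℝ) ^ n := by positivity
  rw [mul_comm] at h4
  exact le_of_mul_le_mul_left h4 hpn

theorem che : Pool.Agent.W142.TF.S_che := by
  intro n p _ δ hδ hδ1 T _ W f hf hW hT
  by_contra hcon
  push Not at hcon
  choose τ hτ using hcon
  have hp : (0 : ℝ) < p := by exact_mod_cast Nat.pos_of_ne_zero (NeZero.ne p)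
  have hpn : (0 : ℝ) < (p : ℝ) ^ n := by positivity
  have hcard : ∑ _x : Fin n → ZMod p, (1 : ℝ) = (p : ℝ) ^ n := by simp [ZMod.card]
  set l : ℝ := δ / 2 with hl
  have h1 : ∀ x : Fin n → ZMod p, (1 : ℝ) ≤ ∑ t : T, Real.exp (l * ∑ i ∈ univ \ W t,
      (f t x i (x i) - (∑ y, f t x i y) / p)) * Real.exp (-(l * (δ * n))) := by
    intro x
    have h2 : (1 : ℝ) ≤ Real.exp (l * ∑ i ∈ univ \ W (τ x),
      (f (τ x) x i (x i) - (∑ y, f (τ x) x i y) / p)) * Real.exp (-(l * (δ * n))) := by
      rw [← Real.exp_add]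
      apply Real.one_le_exp
      have h3 := hτ x
      rw [Finset.sum_sub_distrib]
      have h4 : δ * n ≤ ∑ i ∈ univ \ W (τ x), f (τ x) x i (x i) -
          ∑ i ∈ univ \ W (τ x), (∑ y, f (τ x) x i y) / p := by linarith
      have h5 := mul_le_mul_of_nonneg_left h4 (by positivity : 0 ≤ l)
      linarith
    refine h2.trans ?_
    exact Finset.single_le_sum (f := fun t => Real.exp (l * ∑ i ∈ univ \ W t,
      (f t x i (x i) - (∑ y, f t x i y) / p)) * Real.exp (-(l * (δ * n))))
      (fun t _ => by positivity) (Finset.mem_univ (τ x))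
  have h2 : (p : ℝ) ^ n ≤ ∑ t : T, (p : ℝ) ^ n * Real.exp (l ^ 2 * n) *
      Real.exp (-(l * (δ * n))) := by
    calc (p : ℝ) ^ n = ∑ _x : Fin n → ZMod p, (1 : ℝ) := hcard.symm
      _ ≤ ∑ x : Fin n → ZMod p, ∑ t : T, Real.exp (l * ∑ i ∈ univ \ W t,
          (f t x i (x i) - (∑ y, f t x i y) / p)) * Real.exp (-(l * (δ * n))) :=
          Finset.sum_le_sum fun x _ => h1 x
      _ = ∑ t : T, (∑ x : Fin n → ZMod p, Real.exp (l * ∑ i ∈ univ \ W t,
          (f t x i (x i) - (∑ y, f t x i y) / p))) * Real.exp (-(l * (δ * n))) := by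
          rw [Finset.sum_comm]
          refine Finset.sum_congr rfl fun t _ => ?_
          rw [Finset.sum_mul]
      _ ≤ _ := by
          refine Finset.sum_le_sum fun t _ => ?_
          apply mul_le_mul_of_nonneg_right _ (Real.exp_pos _).le
          exact mom (W t) (f t) (hf t) (hW t) (by positivity) (by linarith)
  rw [Finset.sum_const, Finset.card_univ, nsmul_eq_mul, mul_assoc, ← Real.exp_add] at h2
  have h3 : l ^ 2 * n + -(l * (δ * n)) = -(δ ^ 2 * n / 4) := by rw [hl]; ring
  rw [h3] at h2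
  have h4 : (p : ℝ) ^ n * ((Fintype.card T : ℝ) * Real.exp (-(δ ^ 2 * n / 4))) <
      (p : ℝ) ^ n * 1 := mul_lt_mul_of_pos_left hT hpn
  linarith

end Pool.Agent.W311.HF
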